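import Pool.Agent.K7.H97.MI.Data
import Pool.Agent.K7.H7.MI_KEY
import Pool.Agent.K7.H7.MI_STEPS
import Pool.Agent.K7.H29.MI_BUMP
import Pool.Agent.K7.H29.MI_STEPD
import Pool.Agent.K7.H42.MI.Fin
import Pool.Agent.K7.H47.MI_NECB
import Pool.Agent.K7.H47.MI_STC
import Pool.Agent.K7.H47.MI_STEPR
import Pool.Agent.K7.H52.MI_BASE2
import Pool.Agent.K7.H66.MI.Base1
import Pool.Agent.K7.H99.MI_STEPP

/-!
The classification of the images of semihomogeneous noncommutative polynomials on the real two by
two matrices (question 1 over the reals).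

The proof (project MI) is by helpers 7, 29, 42, 47, 52, 66, 97 and 99.
-/

set_option autoImplicit false
set_option linter.unusedVariables false

namespace Pool.Agent.Results.MP_4e44b6_al.RealMatrixImages

/-- The real two by two matrices. -/
abbrev M2 := Matrix (Fin 2) (Fin 2) ℝ

/-- The coefficient of the word `l` in the noncommutative polynomial `p`. -/
noncomputable def wordCoeff {m : ℕ} (p : FreeAlgebra ℝ (Fin m)) (l : FreeMonoid (Fin m)) : ℝ :=
  (FreeAlgebra.equivMonoidAlgebraFreeMonoid p).coeff l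

/-- `p` is semihomogeneous: for some non-negative integer weights `w_1, …, w_m` and some integer
`d ≠ 0`, every word occurring in `p` has weighted degree `d`. -/
def IsSemihomogeneous {m : ℕ} (p : FreeAlgebra ℝ (Fin m)) : Prop :=
  ∃ (w : Fin m → ℕ) (d : ℤ), d ≠ 0 ∧
    ∀ l : FreeMonoid (Fin m), wordCoeff p l ≠ 0 → (((l.toList.map w).sum : ℕ) : ℤ) = d

/-- The image of the noncommutative polynomial `p` on the real two by two matrices. -/
noncomputable def image {m : ℕ} (p : FreeAlgebra ℝ (Fin m)) : Set M2 :=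
  Set.range (fun a : Fin m → M2 => FreeAlgebra.lift ℝ a p)

/-- The discriminant of the characteristic polynomial: positive if `T` has two distinct real
eigenvalues, negative if `T` has no real eigenvalue. -/
def disc (T : M2) : ℝ := T.trace ^ 2 - 4 * T.det

/-- `T` is a scalar matrix. -/
def IsScalar (T : M2) : Prop := ∃ c : ℝ, T = c • (1 : M2)

/-- `S` is a finite union of nondegenerate intervals (open, closed or half-open, bounded or not). -/
def IsFiniteUnionOfIntervals (S : Set ℝ) : Prop :=
  ∃ F : Set (Set ℝ), F.Finite ∧ (∀ I ∈ F, I.OrdConnected ∧ I.Nontrivial) ∧ S = ⋃₀ F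

/-- The parameters: two sets of real numbers (the quotients `disc T / (trace T) ^ 2` of the
matrices of positive, respectively negative, trace) and seven yes/no choices. -/
structure Parameters where
  /-- the nonzero quotients of the matrices of positive trace -/
  Ap : Set ℝ
  /-- the nonzero quotients of the matrices of negative trace -/
  An : Set ℝ
  /-- non-diagonalizable matrices with a positive double eigenvalue -/
  Jp : Prop
  /-- non-diagonalizable matrices with a negative double eigenvalue -/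
  Jn : Prop
  /-- positive scalars -/
  Cp : Prop
  /-- negative scalars -/
  Cn : Prop
  /-- matrices of trace zero with two distinct real eigenvalues -/
  Ip : Prop
  /-- matrices of trace zero without real eigenvalue -/
  In : Prop
  /-- nonzero nilpotent matrices -/
  N : Prop

/-- The set of matrices described by the parameters. -/
def matrixSet (d : Parameters) : Set M2 :=
  {T | T = 0 ∨
    (0 < T.trace ∧ disc T ≠ 0 ∧ disc T / T.trace ^ 2 ∈ d.Ap) ∨
    (T.trace < 0 ∧ disc T ≠ 0 ∧ disc T / T.trace ^ 2 ∈ d.An) ∨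
    (0 < T.trace ∧ disc T = 0 ∧ ¬ IsScalar T ∧ d.Jp) ∨
    (T.trace < 0 ∧ disc T = 0 ∧ ¬ IsScalar T ∧ d.Jn) ∨
    (0 < T.trace ∧ IsScalar T ∧ d.Cp) ∨
    (T.trace < 0 ∧ IsScalar T ∧ d.Cn) ∨
    (T.trace = 0 ∧ 0 < disc T ∧ d.Ip) ∨
    (T.trace = 0 ∧ disc T < 0 ∧ d.In) ∨
    (T.trace = 0 ∧ disc T = 0 ∧ T ≠ 0 ∧ d.N)}

/-- The admissible parameters. -/
structure Admissible (d : Parameters) : Prop where
  /-- `Ap` does not contain `0` -/
  zero_p : (0 : ℝ) ∉ d.Ap
  /-- `An` does not contain `0` -/
  zero_n : (0 : ℝ) ∉ d.An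
  /-- `Ap` is a finite union of nondegenerate intervals -/
  intervals_p : IsFiniteUnionOfIntervals d.Ap
  /-- `An` is a finite union of nondegenerate intervals -/
  intervals_n : IsFiniteUnionOfIntervals d.An
  /-- a positive double eigenvalue requires quotients of `Ap` close to `0` -/
  double_p : d.Jp ∨ d.Cp → (0 : ℝ) ∈ closure d.Ap
  /-- a negative double eigenvalue requires quotients of `An` close to `0` -/
  double_n : d.Jn ∨ d.Cn → (0 : ℝ) ∈ closure d.An
  /-- trace zero and real eigenvalues require arbitrarily large quotients -/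
  traceless_p : d.Ip → ¬ BddAbove (d.Ap ∪ d.An)
  /-- trace zero and non-real eigenvalues require arbitrarily small quotients -/
  traceless_n : d.In → ¬ BddBelow (d.Ap ∪ d.An)
  /-- some quotient is positive -/
  pos : ∃ r ∈ d.Ap ∪ d.An, 0 < r
  /-- some quotient is negative -/
  neg : ∃ r ∈ d.Ap ∪ d.An, r < 0
  /-- the closure of the set of all quotients is an interval, or its complement is one -/
  conn : (closure (d.Ap ∪ d.An)).OrdConnected ∨ ((closure (d.Ap ∪ d.An))ᶜ).OrdConnected

/-- the same parameters in the library -/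
def toLib (d : Parameters) : Pool.Agent.K7.H97.MI.Data.Parameters :=
  ⟨d.Ap, d.An, d.Jp, d.Jn, d.Cp, d.Cn, d.Ip, d.In, d.N⟩

theorem toLib_good (d : Parameters) :
    Admissible d ↔ Pool.Agent.K7.H97.MI.Data.Good (toLib d) := by
  constructor
  · intro h
    exact ⟨h.zero_p, h.zero_n, h.intervals_p, h.intervals_n, h.double_p, h.double_n,
      h.traceless_p, h.traceless_n, h.pos, h.neg, h.conn⟩
  · intro h
    exact ⟨h.zero_p, h.zero_n, h.fui_p, h.fui_n, h.dbl_p, h.dbl_n, h.inf_p, h.inf_n, h.pos,
      h.neg, h.conn⟩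

/-- The matrices of non-negative trace, with all matrices of trace zero, are an example. -/
theorem example_nonneg : ∃ d : Parameters, Admissible d ∧ matrixSet d = {T | 0 ≤ T.trace} := by
  have hcl : (0 : ℝ) ∈ closure ({0}ᶜ : Set ℝ) := by
    have : closure ({0}ᶜ : Set ℝ) = Set.univ := (dense_compl_singleton (0 : ℝ)).closure_eq
    rw [this]; trivial
  have hfui : IsFiniteUnionOfIntervals ({0}ᶜ : Set ℝ) := by
    refine ⟨{Set.Iio 0, Set.Ioi 0}, Set.toFinite _, ?_, ?_⟩
    · rintro I (rfl | rfl)
      · exact ⟨Set.ordConnected_Iio, -1, by simp, -2, by simp, by norm_num⟩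
      · exact ⟨Set.ordConnected_Ioi, 1, by simp, 2, by simp, by norm_num⟩
    · rw [Set.sUnion_pair, Set.Iio_union_Ioi]
  have hfe : IsFiniteUnionOfIntervals (∅ : Set ℝ) := ⟨∅, Set.finite_empty, by simp, by simp⟩
  refine ⟨⟨{0}ᶜ, ∅, True, False, True, False, True, True, True⟩, ?_, ?_⟩
  · refine ⟨by simp, by simp, hfui, hfe, fun _ => hcl, fun h => by simp at h, fun _ => ?_,
      fun _ => ?_, ⟨1, by simp, one_pos⟩, ⟨-1, by simp, by norm_num⟩, Or.inl ?_⟩
    · rw [Set.union_empty, not_bddAbove_iff]
      intro x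
      refine ⟨max x 0 + 1, ?_, by linarith [le_max_left x 0]⟩
      have := le_max_right x 0
      simp only [Set.mem_compl_iff, Set.mem_singleton_iff]
      intro h; linarith
    · rw [Set.union_empty, not_bddBelow_iff]
      intro x
      refine ⟨min x 0 - 1, ?_, by linarith [min_le_left x 0]⟩
      have := min_le_right x 0
      simp only [Set.mem_compl_iff, Set.mem_singleton_iff]
      intro h; linarith
    · rw [Set.union_empty, (dense_compl_singleton (0 : ℝ)).closure_eq]
      exact Set.ordConnected_univ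
  · ext T
    simp only [matrixSet, Set.mem_ofPred_eq, Set.mem_empty_iff_false, and_false, or_false,
      false_or, and_true, Set.mem_compl_iff, Set.mem_singleton_iff]
    constructor
    · rintro (rfl | h | h | h | h | h | h)
      · simp
      · exact h.1.le
      · exact h.1.le
      · exact h.1.le
      · exact h.1.ge
      · exact h.1.ge
      · exact h.1.ge
    · intro h
      rcases h.eq_or_lt with h | h
      · rcases lt_trichotomy (disc T) 0 with h2 | h2 | h2
        · exact Or.inr (Or.inr (Or.inr (Or.inr (Or.inr (Or.inl ⟨h.symm, h2⟩)))))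
        · by_cases h0 : T = 0
          · exact Or.inl h0
          · exact Or.inr (Or.inr (Or.inr (Or.inr (Or.inr (Or.inr ⟨h.symm, h2, h0⟩)))))
        · exact Or.inr (Or.inr (Or.inr (Or.inr (Or.inl ⟨h.symm, h2⟩))))
      · by_cases h2 : disc T = 0
        · by_cases hs : IsScalar T
          · exact Or.inr (Or.inr (Or.inr (Or.inl ⟨h, hs⟩)))
          · exact Or.inr (Or.inr (Or.inl ⟨h, h2, hs⟩))
        · exact Or.inr (Or.inl ⟨h, h2, div_ne_zero h2 (pow_ne_zero 2 h.ne')⟩)

/-- **The images of semihomogeneous polynomials on the real two by two matrices.**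

(1) A set `S` of real two by two matrices is the image of a semihomogeneous polynomial if and only
if `S` is `{0}`, the set of all scalar matrices, of the non-negative ones or of the non-positive
ones, the set of all matrices of trace zero, the set of the matrices of trace zero which are not
nonzero nilpotent matrices, or the set `matrixSet d` for admissible parameters `d`.

(2) Different admissible parameters give different sets.

(3) The sets `matrixSet d`, `d` admissible, are exactly the images of the semihomogeneous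
polynomials which have a value of nonzero trace and a value which is not a scalar matrix. -/
theorem result :
    (∀ S : Set M2,
      (∃ (m : ℕ) (p : FreeAlgebra ℝ (Fin m)), IsSemihomogeneous p ∧ image p = S) ↔
        (S = {0} ∨ S = Set.range (fun c : ℝ => c • (1 : M2)) ∨
          S = (fun c : ℝ => c • (1 : M2)) '' Set.Ici 0 ∨
          S = (fun c : ℝ => c • (1 : M2)) '' Set.Iic 0 ∨
          S = {T | T.trace = 0} ∨ S = {T | T.trace = 0 ∧ (T = 0 ∨ T.det ≠ 0)} ∨
          ∃ d : Parameters, Admissible d ∧ S = matrixSet d)) ∧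
    (∀ d d' : Parameters, Admissible d → Admissible d' → matrixSet d = matrixSet d' → d = d') ∧
    (∀ S : Set M2,
      (∃ (m : ℕ) (p : FreeAlgebra ℝ (Fin m)), IsSemihomogeneous p ∧
        (∃ T ∈ image p, T.trace ≠ 0) ∧ (∃ T ∈ image p, ¬ IsScalar T) ∧ image p = S) ↔
        ∃ d : Parameters, Admissible d ∧ S = matrixSet d) := by
  have hKey : Pool.Agent.K7.H97.MI.StKey := Pool.Agent.K7.H7.MIKey.key
  have hBump := Pool.Agent.K7.H29.MIBump.bump
  have hSteps := Pool.Agent.K7.H7.MISteps.steps hBump
  have hSuf : Pool.Agent.K7.H97.MI.StSuf :=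
    Pool.Agent.K7.H97.MI.asm Pool.Agent.K7.H42.MI.fin hKey Pool.Agent.K7.H66.MI.base1
      Pool.Agent.K7.H52.MIB2.base2 Pool.Agent.K7.H47.MI_STC.stc
      (Pool.Agent.K7.H29.MIStepD.stepD Pool.Agent.K7.H29.MIBump.bumpD) hSteps.1 hSteps.2
      (Pool.Agent.K7.H99.MIP.stepP hBump) Pool.Agent.K7.H47.MI_STEPR.stepR
  have hNec : Pool.Agent.K7.H97.MI.StNec := Pool.Agent.K7.H47.MI_NECB.nec
  have hset : ∀ d : Parameters, matrixSet d = Pool.Agent.K7.H97.MI.Data.matrixSet (toLib d) :=
    fun _ => rfl
  have hex : ∀ S : Set M2, (∃ d : Parameters, Admissible d ∧ S = matrixSet d) ↔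
      ∃ d : Pool.Agent.K7.H97.MI.Data.Parameters, Pool.Agent.K7.H97.MI.Data.Good d ∧
        S = Pool.Agent.K7.H97.MI.Data.matrixSet d := by
    intro S
    constructor
    · rintro ⟨d, hd, h⟩
      exact ⟨toLib d, (toLib_good d).1 hd, h⟩
    · rintro ⟨d, hd, h⟩
      exact ⟨⟨d.Ap, d.An, d.Jp, d.Jn, d.Cp, d.Cn, d.Ip, d.In, d.N⟩,
        (toLib_good _).2 hd, h⟩
  refine ⟨fun S => ?_, ?_, fun S => ?_⟩
  · rw [hex S]
    exact Pool.Agent.K7.H97.MI.Data.final hKey hSuf hNec S
  · intro d d' hd hd' h
    obtain ⟨h1, h2, h3, h4, h5, h6, h7, h8, h9⟩ := Pool.Agent.K7.H97.MI.Data.inj (toLib d)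
      (toLib d') ((toLib_good d).1 hd) ((toLib_good d').1 hd') h
    cases d
    cases d'
    simp only [toLib] at h1 h2 h3 h4 h5 h6 h7 h8 h9
    simp only [Parameters.mk.injEq]
    exact ⟨h1, h2, propext h3, propext h4, propext h5, propext h6, propext h7, propext h8,
      propext h9⟩
  · rw [hex S]
    constructor
    · rintro ⟨m, p, hp, ⟨T, hT, h1⟩, ⟨T', hT', h2⟩, rfl⟩
      have hadm := hNec m p hp ⟨T, hT, fun h => h1 (by
        rw [Pool.Agent.K7.H97.MI.Data.trace_eq, h, mul_zero])⟩ ⟨T', hT', fun h => h2 ⟨_, h⟩⟩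
      exact ⟨_, Pool.Agent.K7.H97.MI.Data.params_good hadm,
        Pool.Agent.K7.H97.MI.Data.params_set hKey hadm⟩
    · rintro ⟨d, hd, rfl⟩
      have hadm := Pool.Agent.K7.H97.MI.Data.admissible hKey d hd
      obtain ⟨m, p, hp, hip⟩ := hSuf _ hadm
      obtain ⟨r, hr, hr0⟩ := hadm.pos
      have hT : ∃ T ∈ Pool.Agent.K7.H97.MI.Data.matrixSet d,
          Pool.Agent.K7.H97.MI.ht T ≠ 0 ∧ Pool.Agent.K7.H97.MI.dd T ≠ 0 := by
        rcases hr with ⟨_, T, hT, _, h2, h3⟩ | ⟨_, T, hT, _, h2, h3⟩
        · exact ⟨T, hT, h2, by rw [h3]; exact mul_ne_zero hr0.ne' (pow_ne_zero 2 h2)⟩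
        · exact ⟨T, hT, h2, by rw [h3]; exact mul_ne_zero hr0.ne' (pow_ne_zero 2 h2)⟩
      obtain ⟨T, hT, h2, h3⟩ := hT
      rw [← hip] at hT
      refine ⟨m, p, hp, ⟨T, hT, fun h => h2 ?_⟩, ⟨T, hT, fun h => h3 ?_⟩, hip⟩
      · have := Pool.Agent.K7.H97.MI.Data.trace_eq T
        rw [h] at this; linarith
      · exact Pool.Agent.K7.H97.MI.tl_eq_zero_of_dd
          ((Pool.Agent.K7.H97.MI.Data.scalar_iff T).1 h)

end Pool.Agent.Results.MP_4e44b6_al.RealMatrixImages
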